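import Mathlib
import Pool.Agent.Helper37.DG.Stmts

set_option autoImplicit false

/-!
Module MOM of the project DG: moments of the small part of the norm.
-/

namespace Pool.Agent.Helper68.DG

open Finset
open scoped Classical
open Pool.Agent.Helper37.DG
open Pool.Agent.Helper17.SO (PP LL)

lemma nm_le {N M : ℕ} {v : ℤ × ℤ} (hMN : M ≤ N) (hv : v ∈ sbox N M) : nm v ≤ 2 * N ^ 2 := by
  unfold sbox at hv
  rw [Finset.mem_product, Finset.mem_Icc, Finset.mem_Icc] at hv
  obtain ⟨⟨h1, h2⟩, h3, h4⟩ := hv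
  have hMN' : (M : ℤ) ≤ N := by exact_mod_cast hMN
  have hN : (0 : ℤ) ≤ N := Int.natCast_nonneg N
  unfold nm
  zify
  rw [abs_of_nonneg (by positivity)]
  nlinarith

lemma nm_pos {v : ℤ × ℤ} (hv : v ≠ 0) : 0 < nm v := by
  unfold nm
  rw [Int.natAbs_pos]
  intro h
  apply hv
  have h1 : v.1 = 0 := by nlinarith [sq_nonneg v.1, sq_nonneg v.2]
  have h2 : v.2 = 0 := by nlinarith [sq_nonneg v.1, sq_nonneg v.2]
  exact Prod.ext h1 h2

lemma mem_P1 {u w p : ℕ} : p ∈ P1 u w ↔ (u < p ∧ p ≤ w) ∧ p.Prime ∧ p % 4 = 1 := by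
  unfold P1 PP
  rw [Finset.mem_filter, Finset.mem_filter, Finset.mem_Ioc]
  tauto

lemma ms_dvd {y : ℕ} {v : ℤ × ℤ} (hv : v ≠ 0) : ms y v ∣ nm v := by
  have hpos := nm_pos hv
  have h1 : ms y v = ∏ p ∈ (P1 0 y).filter (fun p => p ∈ (nm v).primeFactors),
      p ^ (nm v).factorization p := by
    unfold ms
    rw [Finset.prod_filter]
    apply Finset.prod_congr rfl
    intro p _
    split_ifs with h
    · rfl
    · rw [← Nat.support_factorization, Finsupp.notMem_support_iff] at h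
      rw [h, pow_zero]
  have h2 : nm v = ∏ p ∈ (nm v).primeFactors, p ^ (nm v).factorization p :=
    (Nat.prod_factorization_pow_eq_self hpos.ne').symm
  rw [h1]
  have h3 : (∏ p ∈ (P1 0 y).filter (fun p => p ∈ (nm v).primeFactors),
      p ^ (nm v).factorization p) ∣ ∏ p ∈ (nm v).primeFactors, p ^ (nm v).factorization p := by
    apply Finset.prod_dvd_prod_of_subset
    intro p hp
    exact (Finset.mem_filter.1 hp).2
  exact h3.trans (dvd_of_eq h2.symm)

lemma ms_pos {y : ℕ} {v : ℤ × ℤ} : 0 < ms y v := by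
  unfold ms
  apply Finset.prod_pos
  intro p hp
  exact pow_pos (mem_P1.1 hp).2.1.pos _

lemma prime_dvd_ms {y p : ℕ} {v : ℤ × ℤ} (hp : p.Prime) (h : p ∣ ms y v) : p ∈ P1 0 y := by
  unfold ms at h
  obtain ⟨q, hq, hpq⟩ := (Prime.dvd_finsetProd_iff hp.prime _).1 h
  have h1 := hp.dvd_of_dvd_pow hpq
  have h2 := (Nat.prime_dvd_prime_iff_eq hp (mem_P1.1 hq).2.1).1 h1
  rw [h2]; exact hq

theorem st_MOM (hUPS : ST_UPS) (hLDR : ST_LDR) (hSMS : ST_SMS) : ST_MOM := by
  intro t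
  obtain ⟨b0, C0, hb0, hC0, hU⟩ := hUPS
  obtain ⟨C1, K, hC1, hL⟩ := hLDR 16 t (by norm_num)
  obtain ⟨C2, L, hC2, hS⟩ := hSMS (K + 1)
  refine ⟨2 * b0 + 2, L, C1 * C0 * C2, by omega, by positivity, ?_⟩
  intro j N M y z hy hyz hzN hM hMN hNM
  have hz2 : 2 ≤ z := by omega
  have hN2 : 2 ≤ N := by
    calc 2 ≤ z := hz2
      _ = z ^ 1 := (pow_one z).symm
      _ ≤ z ^ (2 * b0 + 2) := Nat.pow_le_pow_right (by omega) (by omega)
      _ ≤ N := hzN
  set V := (sbox N M).filter (fun v => v ≠ 0 ∧ Free j (P1 y z) v) with hV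
  set F : Finset ℕ := (Finset.Icc 1 N).filter
    (fun e => e ^ 4 ≤ N ∧ ∀ p : ℕ, p.Prime → p ∣ e → p % 4 = 1 ∧ p ≤ y) with hF
  have hF' : ∀ e, e ∈ F ↔ (1 ≤ e ∧ e ≤ N) ∧ e ^ 4 ≤ N ∧
      ∀ p : ℕ, p.Prime → p ∣ e → p % 4 = 1 ∧ p ≤ y := by
    intro e; rw [hF, Finset.mem_filter, Finset.mem_Icc]
  -- step 1
  have h1 : ∀ v ∈ V, (tau (ms y v) : ℝ) ^ t ≤
      C1 * ∑ e ∈ F, if e ∣ nm v then (tau e : ℝ) ^ K else 0 := by
    intro v hv
    rw [hV, Finset.mem_filter] at hv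
    obtain ⟨hvs, hv0, hvF⟩ := hv
    refine (hL (ms y v) ms_pos).trans ?_
    apply mul_le_mul_of_nonneg_left _ hC1.le
    rw [← Finset.sum_filter]
    apply Finset.sum_le_sum_of_subset_of_nonneg
    · intro e he
      rw [Finset.mem_filter, Nat.mem_divisors] at he
      obtain ⟨⟨hed, hms0⟩, he16⟩ := he
      have hdv : e ∣ nm v := hed.trans (ms_dvd hv0)
      have he1 : 1 ≤ e := Nat.pos_of_dvd_of_pos hed ms_pos
      have hmsle : ms y v ≤ 2 * N ^ 2 :=
        (Nat.le_of_dvd (nm_pos hv0) (ms_dvd hv0)).trans (nm_le hMN hvs)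
      have he4 : e ^ 4 ≤ N := by
        have : (e ^ 4) ^ 4 ≤ N ^ 4 := by
          calc (e ^ 4) ^ 4 = e ^ 16 := by ring
            _ ≤ 2 * N ^ 2 := he16.trans hmsle
            _ ≤ N ^ 4 := by nlinarith [Nat.pow_le_pow_left hN2 2, sq_nonneg N]
        exact (Nat.pow_le_pow_iff_left (by norm_num)).1 this
      rw [Finset.mem_filter, hF']
      refine ⟨⟨⟨he1, ?_⟩, he4, ?_⟩, hdv⟩
      · calc e = e ^ 1 := (pow_one e).symm
          _ ≤ e ^ 4 := Nat.pow_le_pow_right he1 (by norm_num)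
          _ ≤ N := he4
      · intro p hp hpe
        have := prime_dvd_ms hp (hpe.trans hed)
        rw [mem_P1] at this
        exact ⟨this.2.2, this.1.2⟩
    · intro e _ _
      positivity
  -- step 3
  have h3 : ∀ e ∈ F, ((V.filter (fun v => e ∣ nm v)).card : ℝ) ≤
      C0 * tau e * ((M : ℝ) * N / e) * sw (P1 y z) := by
    intro e he
    rw [hF'] at he
    obtain ⟨⟨he1, heN⟩, he4, hep⟩ := he
    have heM : e ≤ M := (Nat.pow_le_pow_iff_left (by norm_num : (4 : ℕ) ≠ 0)).1 (he4.trans hNM)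
    have hsub : V.filter (fun v => e ∣ nm v) ⊆
        (sbox N M).filter (fun v => e ∣ nm v ∧ Free j (P1 y z) v) := by
      intro v hv
      rw [hV, Finset.mem_filter, Finset.mem_filter] at hv
      rw [Finset.mem_filter]
      exact ⟨hv.1.1, hv.2, hv.1.2.2⟩
    have hc : ((V.filter (fun v => e ∣ nm v)).card : ℝ) ≤
        (((sbox N M).filter (fun v => e ∣ nm v ∧ Free j (P1 y z) v)).card : ℝ) := by
      exact_mod_cast Finset.card_le_card hsub
    refine hc.trans ?_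
    apply hU j N M z e (P1 y z) hM hMN hz2 he1
    · have hz1 : z ^ (2 * b0) ≤ N :=
        (Nat.pow_le_pow_right (by omega) (by omega)).trans hzN
      have : (z ^ b0 * e) ^ 4 ≤ N ^ 4 := by
        calc (z ^ b0 * e) ^ 4 = (z ^ (2 * b0)) ^ 2 * e ^ 4 := by ring
          _ ≤ N ^ 2 * N := Nat.mul_le_mul (Nat.pow_le_pow_left hz1 2) he4
          _ = N ^ 3 := by ring
          _ ≤ N ^ 4 := Nat.pow_le_pow_right (by omega) (by norm_num)
      exact (Nat.pow_le_pow_iff_left (by norm_num)).1 this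
    · nlinarith
    · intro p hp
      rw [mem_P1] at hp
      refine ⟨hp.2.1, by omega, hp.1.2, ?_⟩
      intro hpe
      have := (hep p hp.2.1 hpe).2
      omega
    · intro p hp hpe
      exact (hep p hp hpe).1
  -- assembly
  have hsw : 0 ≤ sw (P1 y z) := (Real.exp_pos _).le
  calc ∑ v ∈ V, (tau (ms y v) : ℝ) ^ t
      ≤ ∑ v ∈ V, C1 * ∑ e ∈ F, (if e ∣ nm v then (tau e : ℝ) ^ K else 0) :=
        Finset.sum_le_sum h1
    _ = C1 * ∑ e ∈ F, (tau e : ℝ) ^ K * (V.filter (fun v => e ∣ nm v)).card := by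
        rw [← Finset.mul_sum, Finset.sum_comm]
        congr 1
        apply Finset.sum_congr rfl
        intro e _
        rw [← Finset.sum_filter, Finset.sum_const, nsmul_eq_mul, mul_comm]
    _ ≤ C1 * ∑ e ∈ F, (tau e : ℝ) ^ K *
          (C0 * tau e * ((M : ℝ) * N / e) * sw (P1 y z)) := by
        apply mul_le_mul_of_nonneg_left _ hC1.le
        apply Finset.sum_le_sum
        intro e he
        exact mul_le_mul_of_nonneg_left (h3 e he) (by positivity)
    _ = C1 * (C0 * ((M : ℝ) * N) * sw (P1 y z) * ∑ e ∈ F, (tau e : ℝ) ^ (K + 1) / e) := by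
        congr 1
        rw [Finset.mul_sum]
        apply Finset.sum_congr rfl
        intro e _
        rw [pow_succ]
        ring
    _ ≤ C1 * (C0 * ((M : ℝ) * N) * sw (P1 y z) * (C2 * (1 + Real.log y) ^ L)) := by
        apply mul_le_mul_of_nonneg_left _ hC1.le
        apply mul_le_mul_of_nonneg_left _ (by positivity)
        apply hS y F (by omega)
        intro e he
        rw [hF'] at he
        exact ⟨he.1.1, fun p hp hpe => (he.2.2 p hp hpe).2⟩
    _ = C1 * C0 * C2 * (1 + Real.log y) ^ L * ((M : ℝ) * N) * sw (P1 y z) := by ring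

end Pool.Agent.Helper68.DG
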